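import Pool.Agent.U481.GL.Asm

/-!
# MP_842e08_an: all weights for the function `g_λ^*` in `L^p(U)`, `1 < λ ≤ 2`, `2/λ < p < 2`

The inequality `∫ (g_λ^*)^p U ≤ C ∫ |f|^p U` holds if and only if `U ∈ A_p ∩ B_{λp/2}`.

Sufficiency. (1) The class `B_r` is open: with `φ(h) = U((x-h, x+h))` the condition says
`∫_h^∞ φ(t) t^(-r-1) dt ≤ C φ(h) h^(-r)`, so the tails decay geometrically and for some `s < r`
`U((x-ah, x+ah)) ≤ K a^s U((x-h, x+h))` for all `a ≥ 1`. (2) Since `p ≤ 2`, `(g_λ^*)^p` is at most
`C ∑_k 2^(-kλp/2) (S_{2^k})^p`, where `S_a` is the area function of aperture `a`. (3) Change of aperture with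
respect to the measure `U dx`: `∫ (S_a)^p U ≤ C a^s ∫ (S_1)^p U` for `p < 2` (good part of the cone by averaging,
bad part by the maximal function relative to `U`). With `r = λp/2` the sum over `k` converges. (4) The area
function `S_1` is bounded in `L^p(U)` for `U ∈ A_p`; this is proved here from the `L²` bound (Plancherel), the
weak type (1,1) bound (Calderon-Zygmund decomposition), a regularity estimate of the kernels and sparse
domination. (5) Truncation and the monotone limit pass from compactly supported `f` to all `f`.

Necessity. The function `f = σ` on an interval gives `A_p`, and a fixed bump on an interval gives `B_{λp/2}`.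

The parts of the formal proof were written by helpers 88, 95, 96, 208, 212, 255, 319, 438, 479, 480, 492, 574, 606,
669, 682, 785, 978 (packages) and 481 (idea, statements, compactly supported case, assembly), upon the library of
the project HW (see `MP_945c9c_an`).
-/

set_option autoImplicit false

open MeasureTheory Filter Topology Set
open scoped ENNReal NNReal Real

namespace Pool.Agent.Results.MP_842e08_an.GstarWeights

open Pool.Agent.U481.HW Pool.Agent.U481.GL

/-- **Characterization of the weights of the inequality of `g_λ^*`.** -/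
theorem result (l p : ℝ) (hl : 1 < l) (hl2 : l ≤ 2) (hp : 2 / l < p) (hp2 : p < 2)
    (U : ℝ → ℝ≥0) (hU : IsWeight U) :
    (Good l p U ↔ Ap p U ∧ Br (l * p / 2) U) ∧
    (Ap p U → ∀ f : ℝ → ℂ, AEStronglyMeasurable f volume →
      (∫⁻ x, ‖f x‖ₑ ^ p * (U x : ℝ≥0∞)) < ⊤ → Integrable (fun x => f x / ((1 + x ^ 2 : ℝ) : ℂ))) := by
  have h1 : 1 < p := by
    have h2 : 1 ≤ 2 / l := by rw [le_div_iff₀ (by linarith)]; linarith
    linarith
  exact ⟨main.1 l p hl hl2 hp hp2 U hU, fun h => main.2 p h1 U h⟩

end Pool.Agent.Results.MP_842e08_an.GstarWeights
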